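import Mathlib
import Pool.Prelude.Def_F_6b01053b

/-!
# Clique transversals of `K₄`-free graphs that do not arrow `(3,3)^e`

The inequality `τ(G) ≤ n - H(n)` holds for every graph, in particular every `K₄`-free graph, whose
edges have a 2-colouring without monochromatic triangle (in particular for all 5-colourable
graphs) and for all graphs on at most 17 vertices.
-/

set_option autoImplicit false

namespace Pool.Agent.Results.MP_a2fde6_co.RamseyCriterion

open SimpleGraph N514b8c3a

/-- A colouring of the edges with two colours has no monochromatic triangle. -/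
def NoMono {n : ℕ} (G : SimpleGraph (Fin n)) (c : Fin n → Fin n → Bool) : Prop :=
  (∀ u v, c u v = c v u) ∧
    ∀ u v w, G.Adj u v → G.Adj v w → G.Adj u w → ¬ (c u v = c v w ∧ c v w = c u w)

/-- the neighbourhoods (as bit masks) of a triangle-free graph on 17 vertices without an
independent set of size 6 -/
def msk : Fin 17 → ℕ := ![62, 114689, 79873, 9729, 10625, 17089, 99616, 70704, 20560, 71720, 18632,
  34324, 33668, 49180, 9506, 14402, 710]

def ad (i j : Fin 17) : Bool := Nat.testBit (msk i) j.val

theorem ad_symm : ∀ i j : Fin 17, ad i j = ad j i := by decide +kernel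

theorem ad_irr : ∀ i : Fin 17, ad i i = false := by decide +kernel

theorem ad_tri : ∀ i j : Fin 17, i < j → ad i j = true → ∀ k : Fin 17, j < k → ad i k = true →
    ad j k = false := by
  decide +kernel

theorem ad_ind : ∀ a b : Fin 17, a < b → ad a b = false → ∀ c : Fin 17, b < c → ad a c = false →
    ad b c = false → ∀ d : Fin 17, c < d → ad a d = false → ad b d = false → ad c d = false →
    ∀ e : Fin 17, d < e → ad a e = false → ad b e = false → ad c e = false → ad d e = false →
    ∀ f : Fin 17, e < f → ad a f = false → ad b f = false → ad c f = false → ad d f = false →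
      ad e f = true := by
  decide +kernel


/-! ### jH -/

/-- the maximum in the definition of `H` is attained -/
theorem H_mem (n : ℕ) (F : SimpleGraph (Fin n)) (hF : F.CliqueFree 3) :
    ∃ s, F.IsNIndepSet (H n) s := by
  have h1 : H n ∈ {k | ∀ G : SimpleGraph (Fin n), G.CliqueFree 3 → ∃ s, G.IsNIndepSet k s} := by
    unfold H
    refine Nat.sSup_mem ⟨0, ?_⟩ ⟨n, ?_⟩
    · intro G _
      exact ⟨∅, by simp [SimpleGraph.isNIndepSet_iff]⟩
    · intro k hk
      obtain ⟨s, hs⟩ := hk ⊥ (SimpleGraph.cliqueFree_bot (by norm_num))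
      rw [← hs.card_eq]
      exact (Finset.card_le_univ s).trans (by simp)
  exact h1 F hF

theorem tau_le {n : ℕ} (G : SimpleGraph (Fin n)) (T : Finset (Fin n)) (hT : G.IsCliqueTransversal T) :
    G.cliqueTransversalNumber ≤ T.card := by
  unfold SimpleGraph.cliqueTransversalNumber
  exact Nat.sInf_le ⟨T, hT, rfl⟩

/-- a triangle-free subgraph meeting all big maximal cliques in an edge -/
theorem sub_case {n : ℕ} (G F : SimpleGraph (Fin n)) (hle : F ≤ G) (hF : F.CliqueFree 3)
    (hm : ∀ s, G.IsBigMaximalClique s → ∃ u ∈ s, ∃ v ∈ s, F.Adj u v) :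
    G.cliqueTransversalNumber ≤ n - H n := by
  obtain ⟨I, hI⟩ := H_mem n F hF
  have h1 : G.IsCliqueTransversal Iᶜ := by
    intro s hs
    obtain ⟨u, hu, v, hv, huv⟩ := hm s hs
    by_cases huI : u ∈ I
    · refine ⟨v, hv, Finset.mem_compl.2 fun hvI => ?_⟩
      exact hI.isIndepSet (Finset.mem_coe.2 huI) (Finset.mem_coe.2 hvI) huv.ne huv
    · exact ⟨u, hu, Finset.mem_compl.2 huI⟩
  have h2 := tau_le G Iᶜ h1
  rwa [Finset.card_compl, hI.card_eq, Fintype.card_fin] at h2

/-- the complement of a neighbourhood is a clique transversal -/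
theorem deg_case {n : ℕ} (G : SimpleGraph (Fin n)) [DecidableRel G.Adj] (v : Fin n) :
    G.cliqueTransversalNumber ≤ n - G.degree v := by
  have h1 : G.IsCliqueTransversal (G.neighborFinset v)ᶜ := by
    intro s hs
    by_contra hcon
    push Not at hcon
    have h2 : ∀ u ∈ s, G.Adj v u := by
      intro u hu
      have := hcon u hu
      rw [Finset.notMem_compl, SimpleGraph.mem_neighborFinset] at this
      exact this
    have h3 : G.IsClique ((insert v s : Finset (Fin n)) : Set (Fin n)) := by
      rw [Finset.coe_insert]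
      exact hs.1.prop.insert (fun u hu _ => h2 u (Finset.mem_coe.1 hu))
    have h4 : insert v s ≤ s := hs.1.le_of_ge h3 (Finset.subset_insert v s)
    have h5 : v ∈ s := h4 (Finset.mem_insert_self v s)
    exact G.loopless.irrefl v (h2 v h5)
  have h2 := tau_le G _ h1
  rwa [Finset.card_compl, SimpleGraph.card_neighborFinset_eq_degree, Fintype.card_fin] at h2

/-! ### jC -/

theorem colour_case {n : ℕ} (G : SimpleGraph (Fin n)) (c : Fin n → Fin n → Bool) (hc : NoMono G c) :
    G.cliqueTransversalNumber ≤ n - H n := by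
  obtain ⟨hsym, hmono⟩ := hc
  obtain ⟨F, hF⟩ : ∃ F : SimpleGraph (Fin n), ∀ u v, F.Adj u v ↔
      (G.Adj u v ∧ (c u v = true ∨ ∀ w, ¬ (G.Adj u w ∧ G.Adj v w))) := by
    refine ⟨{ Adj := fun u v => G.Adj u v ∧ (c u v = true ∨ ∀ w, ¬ (G.Adj u w ∧ G.Adj v w))
              symm := ⟨?_⟩
              loopless := ⟨?_⟩ }, fun u v => Iff.rfl⟩
    · rintro u v ⟨h1, h2⟩
      refine ⟨h1.symm, ?_⟩
      rcases h2 with h2 | h2
      · left
        rw [hsym]
        exact h2
      · right
        rintro w ⟨h3, h4⟩
        exact h2 w ⟨h4, h3⟩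
    · rintro u ⟨h1, h2⟩
      exact h1.ne rfl
  apply sub_case G F
  · intro u v h
    exact ((hF u v).1 h).1
  · intro s hs
    rw [is3Clique_iff] at hs
    obtain ⟨a, b, d, hab, had, hbd, rfl⟩ := hs
    rw [hF] at hab had hbd
    have e1 : c a b = true := by
      rcases hab.2 with h | h
      · exact h
      · exact absurd ⟨had.1, hbd.1⟩ (h d)
    have e2 : c a d = true := by
      rcases had.2 with h | h
      · exact h
      · exact absurd ⟨hab.1, hbd.1.symm⟩ (h b)
    have e3 : c b d = true := by
      rcases hbd.2 with h | h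
      · exact h
      · exact absurd ⟨hab.1.symm, had.1.symm⟩ (h a)
    apply hmono a b d hab.1 hbd.1 had.1
    rw [e1, e2, e3]
    exact ⟨rfl, rfl⟩
  · intro s hs
    obtain ⟨hmax, hcard⟩ := hs
    have hcl : G.IsClique (s : Set (Fin n)) := hmax.1
    rcases hcard.eq_or_lt with h2 | h3
    · obtain ⟨u, v, huv, rfl⟩ := Finset.card_eq_two.1 h2.symm
      have hu : u ∈ ({u, v} : Finset (Fin n)) := by simp
      have hv : v ∈ ({u, v} : Finset (Fin n)) := by simp
      have hadj : G.Adj u v := hcl (by simp) (by simp) huv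
      refine ⟨u, hu, v, hv, ?_⟩
      rw [hF]
      refine ⟨hadj, Or.inr ?_⟩
      rintro w ⟨h1, h4⟩
      have hcl2 : G.IsClique ((insert w ({u, v} : Finset (Fin n)) : Finset (Fin n)) : Set (Fin n)) := by
        rw [Finset.coe_insert, isClique_insert]
        refine ⟨hcl, ?_⟩
        intro b hb hbw
        simp only [Finset.coe_insert, Finset.coe_singleton, Set.mem_insert_iff,
          Set.mem_singleton_iff] at hb
        rcases hb with rfl | rfl
        · exact h1.symm
        · exact h4.symm
      have hsub := hmax.2 hcl2 (Finset.subset_insert _ _)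
      have hw : w ∈ ({u, v} : Finset (Fin n)) := hsub (Finset.mem_insert_self _ _)
      simp only [Finset.mem_insert, Finset.mem_singleton] at hw
      rcases hw with rfl | rfl
      · exact h1.ne rfl
      · exact h4.ne rfl
    · obtain ⟨a, ha, b, hb, d, hd, hab, had, hbd⟩ := Finset.two_lt_card.1 h3
      have g1 : G.Adj a b := hcl ha hb hab
      have g2 : G.Adj b d := hcl hb hd hbd
      have g3 : G.Adj a d := hcl ha hd had
      by_cases c1 : c a b = true
      · exact ⟨a, ha, b, hb, (hF a b).2 ⟨g1, Or.inl c1⟩⟩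
      · by_cases c2 : c b d = true
        · exact ⟨b, hb, d, hd, (hF b d).2 ⟨g2, Or.inl c2⟩⟩
        · by_cases c3 : c a d = true
          · exact ⟨a, ha, d, hd, (hF a d).2 ⟨g3, Or.inl c3⟩⟩
          · exfalso
            rw [Bool.not_eq_true] at c1 c2 c3
            apply hmono a b d g1 g2 g3
            rw [c1, c2, c3]
            exact ⟨rfl, rfl⟩

/-! ### jV -/

theorem jV_five_case_aux1 : ∀ a b : Fin 5, decide (a - b = 1 ∨ a - b = 4) = decide (b - a = 1 ∨ b - a = 4) := by
  decide

theorem jV_five_case_aux2 : ∀ a b c : Fin 5, a ≠ b → b ≠ c → a ≠ c →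
    ¬ (decide (a - b = 1 ∨ a - b = 4) = decide (b - c = 1 ∨ b - c = 4) ∧
      decide (b - c = 1 ∨ b - c = 4) = decide (a - c = 1 ∨ a - c = 4)) := by
  decide

theorem five_case {n : ℕ} (G : SimpleGraph (Fin n)) (h : G.Colorable 5) :
    G.cliqueTransversalNumber ≤ n - H n := by
  obtain ⟨C⟩ := h
  apply colour_case G (fun u v => decide (C u - C v = 1 ∨ C u - C v = 4))
  refine ⟨fun u v => jV_five_case_aux1 (C u) (C v), ?_⟩
  intro u v w huv hvw huw
  exact jV_five_case_aux2 (C u) (C v) (C w) (C.valid huv) (C.valid hvw) (C.valid huw)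

/-! ### jG -/

/-- greedy colouring -/
theorem greedy {n : ℕ} (G : SimpleGraph (Fin n)) [DecidableRel G.Adj] (d : ℕ)
    (h : ∀ v, G.degree v ≤ d) : G.Colorable (d + 1) := by
  classical
  have key : ∀ k, k ≤ n → ∃ C : Fin n → Fin (d + 1), ∀ u v : Fin n, u.val < k → v.val < k →
      G.Adj u v → C u ≠ C v := by
    intro k
    induction k with
    | zero => exact fun _ => ⟨fun _ => 0, fun u v hu => absurd hu (Nat.not_lt_zero _)⟩
    | succ k ih =>
      intro hk
      obtain ⟨C, hC⟩ := ih (by omega)
      let w : Fin n := ⟨k, by omega⟩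
      have hcard : ((G.neighborFinset w).image C).card < (Finset.univ : Finset (Fin (d + 1))).card := by
        rw [Finset.card_univ, Fintype.card_fin]
        refine lt_of_le_of_lt Finset.card_image_le ?_
        rw [G.card_neighborFinset_eq_degree]
        exact Nat.lt_succ_of_le (h w)
      obtain ⟨c, _, hc⟩ := Finset.exists_mem_notMem_of_card_lt_card hcard
      have hne : ∀ v : Fin n, v.val < k + 1 → v ≠ w → v.val < k := by
        intro v hv hvw
        have : v.val ≠ k := fun h => hvw (Fin.ext h)
        omega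
      have hcol : ∀ v, G.Adj w v → C v ≠ c := by
        intro v hv hcv
        exact hc (Finset.mem_image.2 ⟨v, (G.mem_neighborFinset w v).2 hv, hcv⟩)
      refine ⟨Function.update C w c, ?_⟩
      intro u v hu hv huv
      by_cases huw : u = w
      · subst huw
        have hvw : v ≠ w := fun h => G.loopless.irrefl _ (h ▸ huv)
        rw [Function.update_self, Function.update_of_ne hvw]
        exact (hcol v huv).symm
      · by_cases hvw : v = w
        · subst hvw
          rw [Function.update_self, Function.update_of_ne huw]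
          exact hcol u huv.symm
        · rw [Function.update_of_ne huw, Function.update_of_ne hvw]
          exact hC u v (hne u hu huw) (hne v hv hvw) huv
  obtain ⟨C, hC⟩ := key n le_rfl
  exact ⟨SimpleGraph.Coloring.mk C (fun {u v} huv => hC u v u.2 v.2 huv)⟩


theorem small_H {n : ℕ} (G : SimpleGraph (Fin n)) (h : H n ≤ 5) :
    G.cliqueTransversalNumber ≤ n - H n := by
  classical
  by_cases hv : ∃ v, H n ≤ G.degree v
  · obtain ⟨v, hv⟩ := hv
    exact (deg_case G v).trans (Nat.sub_le_sub_left hv n)
  · push Not at hv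
    refine five_case G (greedy G 4 fun v => ?_)
    have := hv v
    omega

/-! ### jZ -/

theorem jZ_h940_tri (i j k : Fin 17) (h1 : i < j) (h2 : j < k) (hij : ad i j = true)
    (hik : ad i k = true) (hjk : ad j k = true) : False := by
  have h := ad_tri i j h1 hij k h2 hik
  rw [hjk] at h
  exact Bool.noConfusion h

theorem jZ_h940_tri' (i j k : Fin 17) (hij : ad i j = true)
    (hik : ad i k = true) (hjk : ad j k = true) : False := by
  have hji : ad j i = true := by rw [ad_symm]; exact hij
  have hki : ad k i = true := by rw [ad_symm]; exact hik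
  have hkj : ad k j = true := by rw [ad_symm]; exact hjk
  rcases lt_trichotomy i j with h1 | h1 | h1
  · rcases lt_trichotomy j k with h2 | h2 | h2
    · exact jZ_h940_tri i j k h1 h2 hij hik hjk
    · subst h2; rw [ad_irr] at hjk; exact Bool.noConfusion hjk
    · rcases lt_trichotomy i k with h3 | h3 | h3
      · exact jZ_h940_tri i k j h3 h2 hik hij hkj
      · subst h3; rw [ad_irr] at hik; exact Bool.noConfusion hik
      · exact jZ_h940_tri k i j h3 h1 hki hkj hij
  · subst h1; rw [ad_irr] at hij; exact Bool.noConfusion hij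
  · rcases lt_trichotomy j k with h2 | h2 | h2
    · rcases lt_trichotomy i k with h3 | h3 | h3
      · exact jZ_h940_tri j i k h1 h3 hji hjk hik
      · subst h3; rw [ad_irr] at hik; exact Bool.noConfusion hik
      · exact jZ_h940_tri j k i h2 h3 hjk hji hki
    · subst h2; rw [ad_irr] at hjk; exact Bool.noConfusion hjk
    · exact jZ_h940_tri k j i h2 h1 hkj hki hji

theorem H_seventeen (n : ℕ) (hn : n ≤ 17) : H n ≤ 5 := by
  let G0 : SimpleGraph (Fin n) :=
    { Adj := fun i j => ad (Fin.castLE hn i) (Fin.castLE hn j) = true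
      symm := ⟨fun i j h => by rw [ad_symm]; exact h⟩
      loopless := ⟨fun i h => by rw [ad_irr] at h; exact Bool.noConfusion h⟩ }
  have hfree : G0.CliqueFree 3 := by
    intro t ht
    obtain ⟨a, b, c, hab, hac, hbc, _⟩ := SimpleGraph.is3Clique_iff.1 ht
    exact jZ_h940_tri' _ _ _ hab hac hbc
  refine csSup_le' ?_
  intro k hk
  obtain ⟨s, hs⟩ := hk G0 hfree
  by_contra hlt
  push Not at hlt
  have hcard : 6 ≤ s.card := by rw [hs.card_eq]; omega
  obtain ⟨t, hts, htc⟩ := Finset.exists_subset_card_eq hcard
  let e : Fin 6 → Fin 17 := fun i => Fin.castLE hn (t.orderEmbOfFin htc i)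
  have hmono : ∀ i j : Fin 6, i < j → e i < e j := by
    intro i j hij
    have h1 : t.orderEmbOfFin htc i < t.orderEmbOfFin htc j := (t.orderEmbOfFin htc).strictMono hij
    exact h1
  have hind : ∀ i j : Fin 6, i < j → ad (e i) (e j) = false := by
    intro i j hij
    have h1 : t.orderEmbOfFin htc i ∈ s := hts (Finset.orderEmbOfFin_mem t htc i)
    have h2 : t.orderEmbOfFin htc j ∈ s := hts (Finset.orderEmbOfFin_mem t htc j)
    have h3 : t.orderEmbOfFin htc i ≠ t.orderEmbOfFin htc j := by
      intro h
      exact hij.ne ((t.orderEmbOfFin htc).injective h)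
    have h4 := hs.isIndepSet h1 h2 h3
    by_contra hne
    exact h4 (Bool.eq_true_of_not_eq_false hne)
  have hfin := ad_ind (e 0) (e 1) (hmono 0 1 (by decide)) (hind 0 1 (by decide))
    (e 2) (hmono 1 2 (by decide)) (hind 0 2 (by decide)) (hind 1 2 (by decide))
    (e 3) (hmono 2 3 (by decide)) (hind 0 3 (by decide)) (hind 1 3 (by decide)) (hind 2 3 (by decide))
    (e 4) (hmono 3 4 (by decide)) (hind 0 4 (by decide)) (hind 1 4 (by decide)) (hind 2 4 (by decide))
    (hind 3 4 (by decide))
    (e 5) (hmono 4 5 (by decide)) (hind 0 5 (by decide)) (hind 1 5 (by decide)) (hind 2 5 (by decide))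
    (hind 3 5 (by decide))
  rw [hind 4 5 (by decide)] at hfin
  exact Bool.noConfusion hfin

/-- Main result.  A `K₄`-free graph `G` on `n` vertices with `τ(G) > n - H(n)` is a Folkman graph:
every 2-colouring of its edges has a monochromatic triangle.  Moreover it is not 5-colourable, its
degrees are less than `H(n)`, and `n ≥ 18`. -/
theorem result (n : ℕ) (G : SimpleGraph (Fin n)) (hG : G.CliqueFree 4)
    (hbad : ¬ G.cliqueTransversalNumber ≤ n - H n) [DecidableRel G.Adj] :
    (∀ c : Fin n → Fin n → Bool, (∀ u v, c u v = c v u) →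
      ∃ u v w, G.Adj u v ∧ G.Adj v w ∧ G.Adj u w ∧ c u v = c v w ∧ c v w = c u w) ∧
    ¬ G.Colorable 5 ∧ (∀ v : Fin n, G.degree v < H n) ∧ 18 ≤ n := by
  have hG' := hG
  refine ⟨fun c hc => ?_, fun h => hbad (five_case G h), fun v => ?_, ?_⟩
  · by_contra hno
    exact hbad (colour_case G c ⟨hc, fun u v w h1 h2 h3 h4 =>
      hno ⟨u, v, w, h1, h2, h3, h4.1, h4.2⟩⟩)
  · by_contra hv
    exact hbad ((deg_case G v).trans (Nat.sub_le_sub_left (not_lt.mp hv) n))
  · by_contra hn
    exact hbad (small_H G (H_seventeen n (by omega)))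

end Pool.Agent.Results.MP_a2fde6_co.RamseyCriterion
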